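import Mathlib

set_option autoImplicit false

/-!
# Project BF (helper28), MP_17f4cb_nt: non-vanishing quadratic twists along polynomial rotations

General principle: for every bounded `f : ℕ → ℂ` there is a set `E` of Hausdorff dimension zero such that for all
`α` outside `E`, all `D ≥ 1` and ALL real polynomials `P` of degree at most `D` with `D`-th coefficient `α`
`∑_{n ≤ N} f(n) e(P(n)) = o(N)`, uniformly in the lower coefficients.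
-/

namespace Pool.Agent.H28.BF

open Finset Filter Topology Polynomial

noncomputable section

/-- `e(x) = exp(2πix)` -/
def ex (x : ℝ) : ℂ := Complex.exp (2 * Real.pi * x * Complex.I)

/-- distance to the nearest integer -/
def nd (x : ℝ) : ℝ := |x - round x|

/-- ET: a soft Erdős–Turán inequality, uniform in `v`, for arbitrary points `x n` and weights `w n ≥ 0`.
Proof: for `K` large, `1_{fract x < v}` lies between trigonometric polynomials (Fejér means of trapezoids, or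
`H58/BR/Trap.lean`), for `v` in the grid `j/K`; monotonicity in `v`. -/
def S_ET : Prop := ∀ ε : ℝ, 0 < ε → ∃ (H : ℕ) (C : ℝ), 1 ≤ H ∧ 0 < C ∧
  ∀ (N : ℕ) (w : ℕ → ℝ), (∀ n, 0 ≤ w n) → ∀ (x : ℕ → ℝ) (v : ℝ), 0 ≤ v → v ≤ 1 →
  |∑ n ∈ (Ioc 0 N).filter (fun n => Int.fract (x n) < v), w n - v * ∑ n ∈ Ioc 0 N, w n| ≤
    ε * ∑ n ∈ Ioc 0 N, w n + C * ∑ h ∈ Icc 1 H, ‖∑ n ∈ Ioc 0 N, (w n : ℂ) * ex (h * x n)‖

/-- REC: if many `h ≤ N` have `‖h θ‖ ≤ κ`, `κ` small, then some bounded `q` has `‖q θ‖ ≤ C κ/N`.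
(Green–Tao, Lemma 3.2. For `κ < c/100`: Dirichlet gives `q ≤ 4/c`... ; `N ≤ N₀(c)` is harmless if `C` is large, but `κ`
must be used: state holds for all `κ ≥ 0`: if `κ ≥ c/100` take `q ≤ C` with `C κ ≥ 1`? No: then Dirichlet with `q = 1`
does not suffice, so the hypothesis `κ ≤ κ₀(c)` is kept.) -/
def S_REC : Prop := ∀ c : ℝ, 0 < c → ∃ (C : ℕ) (κ₀ : ℝ), 1 ≤ C ∧ 0 < κ₀ ∧
  ∀ (N : ℕ) (θ κ : ℝ), C ≤ N → 0 ≤ κ → κ ≤ κ₀ →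
  c * N ≤ (((Icc 1 N).filter (fun h : ℕ => nd (h * θ) ≤ κ)).card : ℝ) →
  ∃ q : ℕ, 1 ≤ q ∧ q ≤ C ∧ nd (q * θ) ≤ C * κ / N

/-- WEYL: inverse Weyl theorem. Induction on `D`: geometric series for `D = 1` (`D = 0` is not needed); differencing
`‖S‖² ≤ ∑_{|h| < N} ‖∑_n e(P(n+h) - P(n))‖`, leading coefficient `(D+1) h α`, pigeonhole for `q`, REC; `N` small: `q = 1`. -/
def S_WEYL : Prop := ∀ D : ℕ, 1 ≤ D → ∀ η : ℝ, 0 < η → ∃ C : ℕ, 1 ≤ C ∧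
  ∀ (N : ℕ) (P : ℝ[X]), 1 ≤ N → P.natDegree ≤ D → η * N ≤ ‖∑ n ∈ Ioc 0 N, ex (P.eval (n : ℝ))‖ →
  ∃ q : ℕ, 1 ≤ q ∧ q ≤ C ∧ nd (q * P.coeff D) ≤ C / (N : ℝ) ^ D

/-- `α` is bad for `f` at `N`, quality `δ`, degree `D` -/
def Bad (f : ℕ → ℂ) (D N : ℕ) (δ : ℝ) : Set ℝ :=
  {α : ℝ | ∃ P : ℝ[X], P.natDegree ≤ D ∧ P.coeff D = α ∧ δ * N ≤ ‖∑ n ∈ Ioc 0 N, f n * ex (P.eval (n : ℝ))‖}

/-- CNT: the bad `α` in `[m, m+1]` are covered by `K` intervals of length `2 N^{-D}`. -/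
def S_CNT : Prop := ∀ D : ℕ, 1 ≤ D → ∀ δ : ℝ, 0 < δ → ∃ K : ℕ, ∀ (f : ℕ → ℂ), (∀ n, ‖f n‖ ≤ 1) →
  ∀ (N : ℕ) (m : ℤ), 1 ≤ N → ∃ A : Finset ℝ, A.card ≤ K ∧
  ∀ α ∈ Bad f D N δ, (m : ℝ) ≤ α → α ≤ m + 1 → ∃ a ∈ A, |α - a| ≤ 1 / (N : ℝ) ^ D

/-- DIM: the set of the `α` which are bad for infinitely many `N` has dimension zero: if `N_j ≤ N < N_{j+1}` for
`N_{j+1} ≤ (1 + δ/2) N_j` then `Bad f D N δ ⊆ Bad f D N_j (δ/2)`; covers by `K` intervals of length `2 N_j^{-D}` -/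
def S_DIM : Prop := ∀ (f : ℕ → ℂ), (∀ n, ‖f n‖ ≤ 1) → ∀ D : ℕ, 1 ≤ D → ∀ δ : ℝ, 0 < δ →
  dimH {α : ℝ | ∃ᶠ N : ℕ in atTop, α ∈ Bad f D N δ} = 0

/-- PRI: the general principle for countably many bounded sequences, with all multiples `h α`, `h ≥ 1` -/
def S_PRI : Prop := ∀ f : ℕ → ℕ → ℂ, (∀ k n, ‖f k n‖ ≤ 1) → ∃ E : Set ℝ, dimH E = 0 ∧
  (∀ α : ℝ, ¬ Irrational α → α ∈ E) ∧
  ∀ α : ℝ, α ∉ E → ∀ (k D h : ℕ), 1 ≤ D → 1 ≤ h → ∀ δ : ℝ, 0 < δ → ∀ᶠ N : ℕ in atTop,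
    ∀ P : ℝ[X], P.natDegree ≤ D → P.coeff D = h * α →
      ‖∑ n ∈ Ioc 0 N, f k n * ex (P.eval (n : ℝ))‖ ≤ δ * N

/-- EQD: nonnegative bounded weights: uniform equidistribution along all polynomials with leading coefficient `α`,
in all residue classes (`q`, `b`) (put the indicator function of the class into the countable family) -/
def S_EQD : Prop := ∀ w : ℕ → ℕ → ℝ, (∀ k n, 0 ≤ w k n ∧ w k n ≤ 1) → ∃ E : Set ℝ, dimH E = 0 ∧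
  (∀ α : ℝ, ¬ Irrational α → α ∈ E) ∧
  ∀ α : ℝ, α ∉ E → ∀ (k D q b : ℕ), 1 ≤ D → 1 ≤ q → ∀ δ : ℝ, 0 < δ → ∀ᶠ N : ℕ in atTop,
    ∀ P : ℝ[X], P.natDegree ≤ D → P.coeff D = α → ∀ v : ℝ, 0 ≤ v → v ≤ 1 →
    |∑ n ∈ (Ioc 0 N).filter (fun n => n % q = b ∧ Int.fract (P.eval (n : ℝ)) < v), w k n -
      v * ∑ n ∈ (Ioc 0 N).filter (fun n => n % q = b), w k n| ≤ δ * N

end

end Pool.Agent.H28.BF
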