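import Pool.Agent.H28.BF.Fin
import Pool.Agent.H42.BF.Rec
import Pool.Agent.H88.BF.Weyl
import Pool.Agent.H99.BF.Cnt
import Pool.Agent.H10.BF.Dim
import Pool.Agent.H39.BF.Pri
import Pool.Agent.H40.BF.Eqd
import Pool.Agent.H58.BF.ETi

set_option autoImplicit false

/-!
# Project BF: assembly (REC helper42, WEYL helper88, CNT helper99, DIM helper10, PRI helper39, EQD helper40, ET helper58)
-/

namespace Pool.Agent.H28.BF

theorem eqd : S_EQD :=
  Pool.Agent.H40.BF.t_EQD Pool.Agent.H58.BF.t_ET (Pool.Agent.H39.BF.t_PRI (Pool.Agent.H10.BF.t_DIM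
    (Pool.Agent.H99.BF.t_CNT (Pool.Agent.H88.BF.t_WEYL Pool.Agent.H42.BF.t_REC))))

end Pool.Agent.H28.BF
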