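import Pool.Agent.H28.BF.Stm
import Pool.Graph.R_pool_sql_team_seeded_64922ed1.X20.Tr.Fund

set_option autoImplicit false

/-! Project BF: ratios -/

namespace Pool.Agent.H28.BF

open Finset Filter Topology Polynomial

noncomputable section

/-- comparison of two ratios -/
theorem ratio_iff (A F A' F' : ℕ → ℝ) (v c : ℝ) (hv : 0 < v) (hc : 0 < c)
    (hF : ∀ᶠ X : ℕ in atTop, c * X ≤ F X) (hA0 : ∀ X, 0 ≤ A X) (hAF : ∀ X, A X ≤ F X)
    (hA' : ∀ δ : ℝ, 0 < δ → ∀ᶠ X : ℕ in atTop, |A' X - v * A X| ≤ δ * X)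
    (hF' : ∀ δ : ℝ, 0 < δ → ∀ᶠ X : ℕ in atTop, |F' X - v * F X| ≤ δ * X) (ρ : ℝ) :
    Tendsto (fun X => A X / F X) atTop (𝓝 ρ) ↔ Tendsto (fun X => A' X / F' X) atTop (𝓝 ρ) := by
  have key : Tendsto (fun X => A' X / F' X - A X / F X) atTop (𝓝 0) := by
    rw [Metric.tendsto_atTop]
    intro ε hε
    set δ : ℝ := min (v * c / 2) (ε * (v * c) / 8) with hδ
    have hδ0 : 0 < δ := by positivity
    have h1 : δ ≤ v * c / 2 := min_le_left _ _
    have h2 : δ ≤ ε * (v * c) / 8 := min_le_right _ _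
    obtain ⟨N, hN⟩ := eventually_atTop.1 (((hF.and (hA' δ hδ0)).and (hF' δ hδ0)).and (eventually_ge_atTop 1))
    refine ⟨N, fun X hX => ?_⟩
    obtain ⟨⟨⟨g1, g2⟩, g3⟩, g4⟩ := hN X hX
    have hX0 : (0 : ℝ) < X := by exact_mod_cast g4
    have hF0 : 0 < F X := lt_of_lt_of_le (by positivity) g1
    have hF'1 : v * c / 2 * X ≤ F' X := by
      have := (abs_le.1 g3).1
      nlinarith [mul_le_mul_of_nonneg_left g1 hv.le, mul_le_mul_of_nonneg_right h1 hX0.le]
    have hF'0 : 0 < F' X := lt_of_lt_of_le (by positivity) hF'1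
    have e1 : A' X / F' X - A X / F X = ((A' X - v * A X) * F X - A X * (F' X - v * F X)) / (F' X * F X) := by
      field_simp
      ring
    rw [Real.dist_eq, sub_zero, e1, abs_div, abs_of_pos (mul_pos hF'0 hF0), div_lt_iff₀ (mul_pos hF'0 hF0)]
    have h3 : |(A' X - v * A X) * F X - A X * (F' X - v * F X)| ≤ δ * X * F X + F X * (δ * X) := by
      refine (abs_sub _ _).trans ?_
      rw [abs_mul, abs_mul, abs_of_pos hF0, abs_of_nonneg (hA0 X)]
      apply add_le_add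
      · exact mul_le_mul_of_nonneg_right g2 hF0.le
      · exact mul_le_mul (hAF X) g3 (abs_nonneg _) hF0.le
    refine lt_of_le_of_lt h3 ?_
    have h4 : 2 * (δ * X) < ε * F' X := by
      calc 2 * (δ * X) ≤ 2 * (ε * (v * c) / 8 * X) := by
            apply mul_le_mul_of_nonneg_left _ (by norm_num)
            exact mul_le_mul_of_nonneg_right h2 hX0.le
        _ < ε * (v * c / 2 * X) := by nlinarith [mul_pos (mul_pos hε (mul_pos hv hc)) hX0]
        _ ≤ ε * F' X := mul_le_mul_of_nonneg_left hF'1 hε.le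
    nlinarith [mul_lt_mul_of_pos_right h4 hF0]
  constructor
  · intro h
    have := key.add h
    rw [zero_add] at this
    exact this.congr fun X => by ring
  · intro h
    have := h.sub key
    rw [sub_zero] at this
    exact this.congr fun X => by ring

/-- inversion preserves dimension zero -/
theorem dimH_inv (E : Set ℝ) (hE : dimH E = 0) : dimH {α : ℝ | 1 < α ∧ -(1 / α) ∈ E} = 0 := by
  have h1 : {α : ℝ | 1 < α ∧ -(1 / α) ∈ E} ⊆ (fun x : ℝ => -(1 / x)) '' (E ∩ Set.Iio 0) := by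
    rintro α ⟨h1, h2⟩
    refine ⟨-(1 / α), ⟨h2, ?_⟩, ?_⟩
    · rw [Set.mem_Iio]
      have : 0 < 1 / α := by positivity
      linarith
    · simp
  have h2 : dimH ((fun x : ℝ => -(1 / x)) '' (E ∩ Set.Iio 0)) ≤ dimH (E ∩ Set.Iio 0) := by
    apply dimH_image_le_of_locally_lipschitzOn
    rintro x ⟨-, hx⟩
    rw [Set.mem_Iio] at hx
    have hd : ContDiffAt ℝ 1 (fun x : ℝ => -(1 / x)) x := by
      have h5 : ContDiffAt ℝ 1 (fun x : ℝ => -x⁻¹) x := (contDiffAt_inv ℝ hx.ne).neg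
      simpa only [one_div] using h5
    obtain ⟨K, t, ht, hK⟩ := hd.exists_lipschitzOnWith
    exact ⟨K, t, mem_nhdsWithin_of_mem_nhds ht, hK⟩
  have h3 : dimH (E ∩ Set.Iio 0) ≤ dimH E := dimH_mono Set.inter_subset_left
  have h4 : dimH {α : ℝ | 1 < α ∧ -(1 / α) ∈ E} ≤ 0 := by
    calc _ ≤ _ := dimH_mono h1
      _ ≤ _ := h2
      _ ≤ _ := h3
      _ = 0 := hE
  exact nonpos_iff_eq_zero.1 h4

end

end Pool.Agent.H28.BF
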